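import Pool.Agent.H77.InclProof

set_option autoImplicit false

open Pool.Agent.H77.Incl

/-- Some finite semigroup generates an inclusive variety with infinitely many inclusive
subvarieties. -/
theorem Pool.Agent.Results.MP_ea093d_al.Infinite.result :
    ∃ S : Semigrp.{0}, Finite S ∧
      {𝒱 : Set Semigrp.{0} | IsInclVariety 𝒱 ∧ 𝒱 ⊆ gen S}.Infinite :=
  main
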